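import Pool.Agent.NH33.CT.Final

/-!
# Tate classes on abelian varieties over finite fields are generated in codimension at most two

Let `q = p ^ n` be a power of a prime number `p`. By theorems of Weil, Tate and Honda the abelian
varieties `X` over the field with `q` elements are known up to isogeny: `X` is determined by the
characteristic polynomial `P` of the Frobenius endomorphism `F`, which acts semisimply on the Tate
module; `P` is a monic polynomial with integral coefficients whose complex roots have absolute value
`√q`, and such a polynomial occurs if and only if the multiplicity `m` of each irreducible factor `g`
of `P` over `ℚ_p` is such that `n` divides the valuation of `g(0) ^ m`, and real roots have an even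
multiplicity (Honda and Tate). Let `ℓ` be a prime number different from `p`, let `Ω` be an
algebraically closed extension of `ℚ_ℓ`, and let `V = V_ℓ(X) ⊗ Ω`. Then `H^i(X) ⊗ Ω` is the space of
the alternating `i`-forms on `V`, and `Hom(X, Y) ⊗ Ω` is the space of the linear maps which commute with
Frobenius (Tate). This is the structure `AV`, with the homomorphisms `IsHom`. A Tate class of
codimension `j` on `X` is a class `f ∈ H^(2 j)(X)` with `F^* f = q ^ j f` (`IsTate`).

A system of classes (`Sys`) assigns to each abelian variety over the field with `q` elements a space of
classes in its cohomology such that the classes of degree zero belong to it and such that it is stable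
under cup products, pull-backs along homomorphisms and push-forwards along projections of products. The
linear combinations with coefficients in `Ω` of the classes of algebraic cycles are such a system (a
pull-back along a linear combination `h = ∑ a_i h_i` of homomorphisms is a polynomial in the `a_i` whose
coefficients are linear combinations of pull-backs along homomorphisms).

**Theorem.** A system of classes which contains all Tate classes of codimension one, and all Tate
classes of codimension two of the form `e ∧ g` where `e ∈ H^1(X)` is an eigenvector of Frobenius whose
eigenvalue is a square root of `q`, contains **all** Tate classes, of every codimension, on all abelian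
varieties over the field with `q` elements.

Tate classes of codimension one are algebraic by a theorem of Tate. So the Tate conjecture for all
abelian varieties over finite fields is equivalent to its case of codimension two; it suffices to
consider the classes in `H^3(A) ⊗ H^1(E)` on products `A × E` of an abelian variety `A` and a
supersingular elliptic curve (or surface) `E`.

The idea of the proof. Tate classes are combinations of forms `l_1 ∧ ... ∧ l_(2 j)` of eigenvectors of
Frobenius in `H^1` whose eigenvalues `c_1, ..., c_(2 j)`, which are Weil numbers, have the product
`q ^ j`. Let `s = √q`. Roots of Weil numbers are Weil numbers: if `N ≥ 2 j` and `ρ_i ^ N = c_i s ^ (N-1)`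
then `ρ_i`, `ρ_i ^ k / s ^ (k - 1)` and `ρ_1 ... ρ_k / s ^ (k - 1)` are algebraic integers for `k ≤ N`,
because their powers with exponent `N` are, and they are Weil numbers, which occur on abelian varieties
by the theorem of Honda. Each multiplicative relation between Weil numbers can be composed of relations
`a b = c s`, which give classes of codimension two; the composition is done by cup products and
push-forwards.
-/

set_option autoImplicit false

namespace Pool.Agent.Results.MP_950c68_ag.CodimensionTwo

open Pool.Agent.NH33.CT

/-- **Tate classes on abelian varieties over finite fields are generated in codimension at most two.** -/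
theorem result (p n : ℕ) [Fact p.Prime] (hn : 0 < n)
    (Ω : Type) [Field Ω] [IsAlgClosed Ω] [CharZero Ω] (𝒜 : Sys p n Ω)
    -- the Tate classes of codimension one
    (h₂ : ∀ (X : AV p n Ω) (f : X.V [⋀^Fin 2]→ₗ[Ω] Ω), IsTate X f 1 → 𝒜.A X (Fin 2) f)
    -- the Tate classes of codimension two with a supersingular factor
    (h₄ : ∀ (X : AV p n Ω) (f : X.V [⋀^Fin 4]→ₗ[Ω] Ω), IsTate X f 2 → HasSupersingularFactor X f →
      𝒜.A X (Fin 4) f) :
    ∀ (X : AV p n Ω) (κ : Type) (f : X.V [⋀^κ]→ₗ[Ω] Ω) (j : ℕ), Finite κ → IsTate X f j →
      𝒜.A X κ f :=
  main p n Ω hn 𝒜 h₂ h₄

end Pool.Agent.Results.MP_950c68_ag.CodimensionTwo
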