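import Pool.Agent.NH35.HT.Final
import Pool.Agent.NH35.HT.SupG

/-!
# The Tate conjecture for diagonal hypersurfaces over finite fields: odd order of the characteristic

`X : c_0 * x_0 ^ m + ... + c_(n+1) * x_(n+1) ^ m = 0` is a diagonal hypersurface of even dimension
`n` and degree `m` over a finite field of characteristic `p`, `p` prime to `m`. Over a larger finite
field it becomes isomorphic to the Fermat variety, whose primitive cohomology of degree `n` splits
into lines `V(a)`, `a` a tuple of `n + 2` nonzero residues modulo `m` with sum zero. A power of the
Frobenius acts on `V(a)` as on the classes of algebraic cycles if and only if `a` is a Tate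
character (`IsTate`; Weil's formula for the eigenvalues and Stickelberger's theorem). The theorem
says: if the order `f` of `p` modulo `m` is odd (for example, if `p` is congruent to one modulo
`m`), and if `m` is not divisible by one of the following numbers, which form a finite set for
given `n` and `f`, then every Tate character with `n + 2` entries becomes, after raising the degree
to a suitable multiple prime to `p`, a member of the closure of the characters of surfaces and of
the standard characters of Aoki: the products `q * r` of two different odd primes with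
`(q - 1) * (r - 1) ≤ 4 * f * (n + 2)`, the numbers `2 * q * r` with
`(q - 1) * (r - 1) ≤ 8 * f * (n + 2)`, and the numbers `4 * q` with `q - 1 ≤ 2 * f * (n + 2)`. The
same is true for all `m` prime to `6` if `f * (n + 2) ≤ 6`, that is, for all Fermat fourfolds of
degree prime to `6` if `p` is congruent to one modulo `m`.
-/

set_option autoImplicit false

namespace Pool.Agent.Results.MP_950c68_ag.FermatOddOrder

open Pool.Agent.H916T

/-- **Tate classes on diagonal hypersurfaces over finite fields.** Let `f` be the order of `p`
modulo `m`, `f` odd, and let `s` be a Tate character with `n + 2` entries. If `m` is prime to `6`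
and `f (n + 2) ≤ 6`, or if any two different odd prime factors `q` and `r` of `m` satisfy
`4 f (n + 2) < (q - 1) (r - 1)` (`8 f (n + 2) < (q - 1) (r - 1)` if `m` is even) and, if `4` divides
`m`, all odd prime factors `q` of `m` satisfy `2 f (n + 2) < q - 1`, then `s` becomes, after raising
the degree to a multiple prime to `p`, a member of the closure of the characters of surfaces and of
the standard characters. -/
theorem result (p m : ℕ) (hp : p.Prime) (hm : 0 < m) (hpm : p.Coprime m)
    (hf : Odd (orderOf (p : ZMod m))) (s : Multiset (ZMod m)) (hs : IsTate p m s) (hne : s ≠ 0)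
    (h : (m.Coprime 6 ∧ orderOf (p : ZMod m) * Multiset.card s ≤ 6) ∨
      ((∀ q ∈ m.primeFactors, ∀ r ∈ m.primeFactors, q ≠ 2 → r ≠ 2 → q ≠ r →
        (if Even m then 8 else 4) * (orderOf (p : ZMod m) * Multiset.card s) <
          (q - 1) * (r - 1)) ∧
      (4 ∣ m → ∀ q ∈ m.primeFactors, q ≠ 2 →
        2 * (orderOf (p : ZMod m) * Multiset.card s) < q - 1))) :
    ∃ N : ℕ, 0 < N ∧ p.Coprime N ∧
      Generated (N * m)
        (fun t => SurfaceTate p (N * m) t ∨ ∃ q : ℕ, q.Prime ∧ q ∣ N * m ∧ Standard q (N * m) t)
        (s.map fun a => ((N * a.val : ℕ) : ZMod (N * m))) := by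
  have : NeZero m := ⟨hm.ne'⟩
  obtain ⟨N, hN, hpN, H⟩ := Pool.Agent.NH35.HT.tate_of Pool.Agent.NH35.HT.supG_ok hp hm hpm hf hs
    hne (fun x hx hR c hc => Pool.Agent.NH35.HT.short x (by rw [hx]; exact h) hR c hc)
  exact ⟨N, hN, hpN, H (N * m) rfl⟩

end Pool.Agent.Results.MP_950c68_ag.FermatOddOrder
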