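import Pool.Agent.NH33.Ir.Final

/-!
# The Tate conjecture for products of varieties given by CM fields with irreducible odd part

Let `E i`, `i < r`, be CM fields with pairwise different Galois closures such that the representation
of the Galois group of `ℚ` on the odd rational functions on the embeddings of `E i` is irreducible.
This holds for example if `E i` has degree `2 ℓ`, `ℓ` a prime number, and does not contain an
imaginary quadratic field; or if the Galois group contains all changes of sign; or if the degree is a
power of two and some automorphism permutes the embeddings cyclically (some prime number is inert); or
if the Galois group is triply transitive on the pairs of conjugate embeddings and there is no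
imaginary quadratic subfield (`IsGoodField`). Let `α i` be a number in `E i` with all complex absolute
values one and some conjugate which is not a unit at a `p`-adic place `ι`.

Let `X i` be smooth projective varieties over an algebraic closure of the field with `p` elements
whose squares satisfy the Tate conjecture in codimension `b i`: abelian varieties or curves with
`b i = 1` (Tate), K3 surfaces with `b i = 2` (Ito, Ito and Koshikawa, following Charles, Madapusi
Pera, Kim). Let `Z` be **any** variety whose cohomology algebra is generated by the classes of
algebraic cycles and the images under algebraic correspondences from the `X i` of the Frobenius
eigenvectors in `H ^ (b i) (X i)` given by the conjugates of `α i`, that is with Frobenius eigenvalue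
`μ`, `μ ^ 2 / q ^ (b i)` equal to a conjugate of a root of `(α i) ^ 2` up to a root of unity. For
example `Z` may be

* any product of abelian varieties which are isogenous to products of simple abelian varieties `A` of
  prime dimensions, all conjugates of whose Frobenius numbers generate fields of degree `2 dim A`
  without imaginary quadratic subfields, such that these fields have different Galois closures for
  factors which are not isogenous over an extension, and of supersingular elliptic curves;
* the product of such an abelian variety with powers of K3 surfaces whose transcendental lattice has
  rank `2 ℓ` (and its varieties of blow-ups, Hilbert schemes, moduli of sheaves, curves covered by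
  such, ...).

**Theorem.** The Tate conjecture and the semisimplicity of Frobenius hold for `Z` in all
codimensions, and homological and numerical equivalence agree. Moreover let `U` be **any** smooth
projective variety each of whose Frobenius eigenvalues has **a degree smaller than the degrees of all
fields `E i`** (for example: all Betti numbers of `U` are smaller than `2 g` if the `E i` belong to
abelian varieties of dimensions at least `g`), or is (up to a power) a product of numbers which are
foreign to the `E i`: roots of a rational polynomial with slopes determined by a Galois extension of
`ℚ` which does not contain any of the `E i`, or, if `E i` has degree `2 ℓ i` for prime numbers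
`ℓ i`, of degree smaller than all `ℓ i`. Then the Tate conjecture for `Z × U` in codimension `c` is
equivalent to the Tate conjecture for `U` in codimension `c - i` for all `i ≤ c` with a cycle of
codimension `i` on `Z` which is not homologically trivial, and similarly with semisimplicity; and
homological and numerical equivalence agree on `Z × U` if and only if they do on `U`. For example `Z`
may be a product of powers of abelian varieties of prime dimensions at least thirteen as above and `U`
any surface or fourfold with all Betti numbers at most `25`, like K3 surfaces and cubic fourfolds.

The idea: the translates of a relation between the conjugates of the numbers `α i` and a function of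
the Galois group which is invariant under the automorphisms over `L` are again such relations. The
odd functions on the embeddings of `E i` invariant under the automorphisms over `L` are a
subrepresentation, so they vanish if `L` does not contain `E i`; this separates the different
fields and `U`. The relations of one number are a proper subrepresentation, so they vanish too.
A relation with a number `ν` gives an odd
function for each conjugate of `ν`; these functions span all odd functions, and with a function also its
negative occurs, so there are at least `[E i : ℚ]` of them.
Irreducibility in prime degree `ℓ`: for an element of order `ℓ` of the Galois group and odd functions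
`f ∈ P`, `m ∈ P'` (the orthogonal complement) the circular convolution of `f` and `m` is zero, so one
of them is constant along the cycle by the irreducibility of the cyclotomic polynomial; hence `P` or
`P'` is a line, and its stabiliser gives an imaginary quadratic subfield.
-/

set_option autoImplicit false

open CategoryTheory AlgebraicGeometry NumberField

universe u v

namespace Pool.Agent.Results.MP_950c68_ag.IrreducibleFields

open Pool.Agent.H914 Pool.Agent.W534 Pool.Agent.TH132.A Pool.Agent.Y103.Hk Pool.Agent.Y103.Sh
  Pool.Agent.NH33.Ir VarClass Obj WeilCohomology

/-- **The Tate conjecture for varieties generated by pieces given by different CM fields with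
irreducible odd part, and for their products with all varieties foreign to these fields.** -/
theorem result {k : Type u} [Field k] {𝒱 : VarClass k} {ops : CycleOps 𝒱}
    (W : WeilCohomology.{u, v} ops) [IsAlgClosed W.K] (p : ℕ) [Fact p.Prime]
    (Φ : FrobSystem W p) (ι : AlgebraicClosure ℚ →+* PadicAlgCl p)
    -- the CM fields
    (r : ℕ) (E : Fin r → Type) [∀ i, Field (E i)] [∀ i, NumberField (E i)]
    [∀ i, IsCMField (E i)] (hE : ∀ i, IsGoodField (E i))
    (hne : ∀ i j, i ≠ j → galoisClosure (E i) ≠ galoisClosure (E j))
    -- the numbers
    (α : ∀ i, E i) (hu : ∀ i (φ : E i →+* ℂ), ‖φ (α i)‖ = 1)
    (hns : ∀ i, ∃ σ : E i →+* AlgebraicClosure ℚ, ‖ι (σ (α i))‖ ≠ 1)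
    -- the varieties
    (X : Fin r → 𝒱.Obj) (b e : Fin r → ℕ) (he : ∀ i, 0 < e i)
    (hX : ∀ i, TateIn Φ ((X i).prod (X i)) (b i))
    (Z : 𝒱.Obj) (hZ : IsGeneratedFrom Φ X b e α Z) :
    (∀ c, SemisimpleTateIn Φ Z c) ∧ HomIsNum W Z ∧
    ∀ U : 𝒱.Obj, HasForeignEigenvalues Φ ι E U →
      (HasCycle W Z 0 → (HomIsNum W (Z.prod U) ↔ HomIsNum W U)) ∧ ∀ c,
      (TateIn Φ (Z.prod U) c ↔ ∀ i ≤ c, HasCycle W Z i → TateIn Φ U (c - i)) ∧
      (SemisimpleTateIn Φ (Z.prod U) c ↔
        ∀ i ≤ c, HasCycle W Z i → SemisimpleTateIn Φ U (c - i)) :=
  final hE hne hu hns he hX hZ

end Pool.Agent.Results.MP_950c68_ag.IrreducibleFields
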