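import Pool.Agent.NH33.Nw.Final

/-!
# The Tate conjecture for products with varieties with small slopes

Let `E i`, `i < r`, be CM fields with pairwise different Galois closures such that the representation
of the Galois group of `ℚ` on the odd functions on the embeddings of `E i` has only scalar
endomorphisms; for example `E i` has degree `2 ℓ`, `ℓ` an odd prime number, and does not contain an
imaginary quadratic field; or the Galois group contains all changes of sign; or it is triply
transitive on the pairs of conjugate embeddings and there is no imaginary quadratic subfield
(`IsStrongField`). Let `α i` be a number in `E i` with all complex absolute values one and some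
conjugate which is not a unit at a `p`-adic place `ι`, let `X i` be smooth projective varieties over an
algebraic closure of the field with `p` elements whose squares satisfy the Tate conjecture in
codimension `b i`, and let `Z` be **any** variety whose cohomology algebra is generated by the classes
of algebraic cycles and the images under algebraic correspondences from the `X i` of the Frobenius
eigenvectors in `H ^ (b i) (X i)` given by the conjugates of `α i`. (For example: `Z` is a product of
powers of simple abelian varieties `A i` with endomorphism fields `E i` of degree `2 dim A i`.)

**Theorem.** Let `U` be **any** smooth projective variety whose Frobenius eigenvalues `ν` are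
algebraic numbers with the property that the sum of `(λ - x) ^ 2` over the slopes `λ` of all conjugates
of `ν` (for some real number `x`, for instance half the degree of the cohomology) is smaller than the
sum of the squares of the deviations from `b i / 2` of the slopes of the conjugates of the Frobenius
eigenvalues of `X i` given by `α i`, for each `i`. Then the Tate conjecture for `Z × U` in codimension
`c` is equivalent to the Tate conjecture for `U` in codimension `c - i` for all `i ≤ c` with a cycle of
codimension `i` on `Z` which is not homologically trivial, and similarly with semisimplicity; and
homological and numerical equivalence agree on `Z × U` if and only if they do on `U`.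

Nothing is assumed about the fields generated by the eigenvalues of `U`. For example let the `A i` be
ordinary simple abelian varieties of dimensions `g i`. Then the sum for `A i` is `g i / 2`. So the
theorem proves the Tate conjecture for `Z × U` for **all** curves `U` of genus smaller than all `g i`
and, if all `g i` are at least five, for **all** K3 surfaces `U` of finite height (the Tate conjecture
is known for K3 surfaces, and the sum for a K3 surface of height `h` is at most `2 / h`).
A similar theorem (`AlmostAllTimesVarieties`, a starting file) holds for almost all abelian varieties
in the sense of a proportion of all isogeny classes.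

The idea: let a word in the conjugates of the `α i`, with exponents `N i σ`, times `ν` be a power of
`q` up to a root of unity. The differences `f i σ = N i σ - N i (conj σ)` are invariant under the
stabiliser of `ν`, so they define functions `f i (g⁻¹ σ)` on the set of the conjugates `g ν` of `ν`.
The matrices of the inner products of these functions are Galois-invariant; hence, for each `i`, the
functions are orthogonal for `σ` which are not conjugate, with a squared length which is an even
integer, and the functions for different `i` are orthogonal. The slope of `g ν` is an explicit linear
combination of these functions, and the theorem of Pythagoras gives the lower bound for the sum of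
the squares of the deviations of its slopes.
-/

set_option autoImplicit false

open CategoryTheory AlgebraicGeometry NumberField

universe u v

namespace Pool.Agent.Results.MP_950c68_ag.NarrowVarieties

open Pool.Agent.H914 Pool.Agent.W534 Pool.Agent.TH132.A Pool.Agent.Y103.Hk Pool.Agent.Y103.Sh
  Pool.Agent.NH33.Ir Pool.Agent.NH33.Sf Pool.Agent.NH33.Nw VarClass Obj WeilCohomology

/-- **The Tate conjecture for the products of varieties generated by pieces given by CM fields with
all varieties with narrow Frobenius eigenvalues.** -/
theorem result {k : Type u} [Field k] {𝒱 : VarClass k} {ops : CycleOps 𝒱}
    (W : WeilCohomology.{u, v} ops) [IsAlgClosed W.K] (p : ℕ) [Fact p.Prime]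
    (Φ : FrobSystem W p) (ι : AlgebraicClosure ℚ →+* PadicAlgCl p)
    -- the CM fields
    (r : ℕ) (E : Fin r → Type) [∀ i, Field (E i)] [∀ i, NumberField (E i)]
    [∀ i, IsCMField (E i)] (hE : ∀ i, IsStrongField (E i))
    (hne : ∀ i j, i ≠ j → galoisClosure (E i) ≠ galoisClosure (E j))
    -- the numbers
    (α : ∀ i, E i) (hu : ∀ i (φ : E i →+* ℂ), ‖φ (α i)‖ = 1)
    (hns : ∀ i, ∃ σ : E i →+* AlgebraicClosure ℚ, ‖ι (σ (α i))‖ ≠ 1)
    -- the varieties
    (X : Fin r → 𝒱.Obj) (b e : Fin r → ℕ) (he : ∀ i, 0 < e i)
    (hX : ∀ i, TateIn Φ ((X i).prod (X i)) (b i))
    (Z : 𝒱.Obj) (hZ : IsGeneratedFrom Φ X b e α Z)
    (U : 𝒱.Obj) (hU : HasNarrowEigenvalues Φ ι X e α U) :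
    (HasCycle W Z 0 → (HomIsNum W (Z.prod U) ↔ HomIsNum W U)) ∧ ∀ c,
      (TateIn Φ (Z.prod U) c ↔ ∀ i ≤ c, HasCycle W Z i → TateIn Φ U (c - i)) ∧
      (SemisimpleTateIn Φ (Z.prod U) c ↔
        ∀ i ≤ c, HasCycle W Z i → SemisimpleTateIn Φ U (c - i)) :=
  final_narrow hE hne hu hns he hX hZ U hU

end Pool.Agent.Results.MP_950c68_ag.NarrowVarieties
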